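import Pool.Agent.L7h52.NQ.Stm3

/-! Project NQ, part ONEX: one more exponent costs one unit of one multiplicity (characteristic zero).
The configuration is generic, over `K = ℚ(X_(i,j))`; a Laurent polynomial `f` with `f p = 1` is killed by the
Euler derivations in the coordinates of the point `i0`, because these lower the multiplicity at that point by at
most one and send `f` into the Laurent polynomials with exponents in `S`. -/

namespace Pool.Agent.L7h96.NQ

open Finset MvPolynomial TensorProduct
open Pool.Agent.TH176.Nag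
open Pool.Agent.TH603.Sur

/-- Derivations extend to the field of fractions (proof as in `Pool.Agent.H882R3.BS.exists_der_frac`). -/
theorem exists_der_frac {k B : Type*} [Field k] [CommRing B] [IsDomain B] [Algebra k B]
    (E : Derivation k B B) : ∃ E' : Derivation k (FractionRing B) (FractionRing B),
      ∀ b, E' (algebraMap B (FractionRing B) b) = algebraMap B (FractionRing B) (E b) := by
  let L := FractionRing B
  have hfe : Algebra.FormallyEtale B L :=
    Algebra.FormallyEtale.of_isLocalization (nonZeroDivisors B)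
  let l0 : Ω[B⁄k] →ₗ[B] L := (Algebra.linearMap B L) ∘ₗ E.liftKaehlerDifferential
  let l : L ⊗[B] Ω[B⁄k] →ₗ[L] L := LinearMap.liftBaseChange L l0
  let e := KaehlerDifferential.tensorKaehlerEquivOfFormallyEtale k B L
  refine ⟨(l ∘ₗ e.symm.toLinearMap).compDer (KaehlerDifferential.D k L), fun c => ?_⟩
  change l (e.symm (KaehlerDifferential.D k L (algebraMap B L c))) = _
  rw [KaehlerDifferential.tensorKaehlerEquivOfFormallyEtale_symm_D_algebraMap,
    LinearMap.liftBaseChange_tmul, one_smul]
  change algebraMap B L (E.liftKaehlerDifferential (KaehlerDifferential.D k B c)) = _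
  rw [Derivation.liftKaehlerDifferential_comp_D]

section der
variable {K : Type*} [Field K] [Algebra ℚ K]

/-- the derivation of a monomial -/
theorem D_mon (D : Derivation ℚ K K) {x y α β : K} (hx : x ≠ 0) (hy : y ≠ 0)
    (hDx : D x = α * x) (hDy : D y = β * y) (m n : ℤ) :
    D (x ^ m * y ^ n) = (α * m + β * n) * (x ^ m * y ^ n) := by
  rw [Derivation.leibniz, Derivation.leibniz_zpow, Derivation.leibniz_zpow, hDx, hDy]
  simp only [smul_eq_mul, zsmul_eq_mul]
  have e1 : x ^ (m - 1) * (α * x) = α * x ^ m := by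
    rw [zpow_sub_one₀ hx]; field_simp
  have e2 : y ^ (n - 1) * (β * y) = β * y ^ n := by
    rw [zpow_sub_one₀ hy]; field_simp
  rw [e1, e2]
  ring

theorem D_int (D : Derivation ℚ K K) (m n : ℤ) (a b : ℕ) : D ((m : K) ^ a * (n : K) ^ b) = 0 := by
  have : ((m : K) ^ a * (n : K) ^ b) = ((m ^ a * n ^ b : ℤ) : K) := by push_cast; rfl
  rw [this]
  exact Derivation.map_intCast D _

/-- the derivation of the conditions -/
theorem D_pr (D : Derivation ℚ K K) (f : (ℤ × ℤ) →₀ K) {x y α β : K} (hx : x ≠ 0) (hy : y ≠ 0)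
    (hDx : D x = α * x) (hDy : D y = β * y) (a b : ℕ) :
    D (pr f x y (fun q => q.1 ^ a * q.2 ^ b)) =
      pr (f.mapRange D (map_zero D)) x y (fun q => q.1 ^ a * q.2 ^ b) +
        α * pr f x y (fun q => q.1 ^ (a + 1) * q.2 ^ b) +
        β * pr f x y (fun q => q.1 ^ a * q.2 ^ (b + 1)) := by
  unfold pr
  rw [Finsupp.sum_mapRange_index (by intro m; ring)]
  unfold Finsupp.sum
  rw [map_sum, mul_sum, mul_sum, ← sum_add_distrib, ← sum_add_distrib]
  apply sum_congr rfl
  intro m _
  beta_reduce
  rw [Derivation.leibniz, D_mon D hx hy hDx hDy, Derivation.leibniz, D_int]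
  simp only [smul_eq_mul]
  ring

/-- eigenvectors for different eigenvalues -/
theorem eig [CharZero K] (D0 D1 : Derivation ℚ K K) (T : Finset (ℤ × ℤ)) : ∀ (v : ℤ × ℤ → K),
    (∀ c ∈ T, D0 (v c) = (c.1 : K) * v c) → (∀ c ∈ T, D1 (v c) = (c.2 : K) * v c) →
    ∑ c ∈ T, v c = 0 → ∀ c ∈ T, v c = 0 := by
  classical
  have key : ∀ (D : Derivation ℚ K K) (e : ℤ × ℤ → ℤ) (m : ℤ) (z : K),
      D (((m : ℤ) : K) * z) = (m : K) * D z := by
    intro D e m z
    rw [Derivation.leibniz, Derivation.map_intCast]
    simp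
  induction T using Finset.induction_on with
  | empty => intro v _ _ _ c hc; simp at hc
  | insert a T ha ih =>
    intro v h0 h1 hs
    -- the two reduced families
    have r0 : ∀ c ∈ T, (((c.1 - a.1 : ℤ)) : K) * v c = 0 := by
      apply ih (fun c => (((c.1 - a.1 : ℤ)) : K) * v c)
      · intro c hc
        rw [key D0 Prod.fst, h0 c (mem_insert_of_mem hc)]; ring
      · intro c hc
        rw [key D1 Prod.fst, h1 c (mem_insert_of_mem hc)]; ring
      · have e1 : D0 (∑ c ∈ insert a T, v c) - (a.1 : K) * ∑ c ∈ insert a T, v c = 0 := by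
          rw [hs]; simp
        rw [map_sum, mul_sum, ← sum_sub_distrib, sum_insert ha, h0 a (mem_insert_self a T),
          sub_self, zero_add] at e1
        rw [← e1]
        apply sum_congr rfl
        intro c hc
        rw [h0 c (mem_insert_of_mem hc)]
        push_cast
        ring
    have r1 : ∀ c ∈ T, (((c.2 - a.2 : ℤ)) : K) * v c = 0 := by
      apply ih (fun c => (((c.2 - a.2 : ℤ)) : K) * v c)
      · intro c hc
        rw [key D0 Prod.fst, h0 c (mem_insert_of_mem hc)]; ring
      · intro c hc
        rw [key D1 Prod.fst, h1 c (mem_insert_of_mem hc)]; ring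
      · have e1 : D1 (∑ c ∈ insert a T, v c) - (a.2 : K) * ∑ c ∈ insert a T, v c = 0 := by
          rw [hs]; simp
        rw [map_sum, mul_sum, ← sum_sub_distrib, sum_insert ha, h1 a (mem_insert_self a T),
          sub_self, zero_add] at e1
        rw [← e1]
        apply sum_congr rfl
        intro c hc
        rw [h1 c (mem_insert_of_mem hc)]
        push_cast
        ring
    have hT : ∀ c ∈ T, v c = 0 := by
      intro c hc
      rcases mul_eq_zero.1 (r0 c hc) with h2 | h2
      · rcases mul_eq_zero.1 (r1 c hc) with h3 | h3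
        · exfalso
          have h4 : c.1 - a.1 = 0 := by exact_mod_cast h2
          have h5 : c.2 - a.2 = 0 := by exact_mod_cast h3
          apply ha
          have : c = a := by ext <;> omega
          rw [← this]; exact hc
        · exact h3
      · exact h2
    intro c hc
    rcases mem_insert.1 hc with h2 | h2
    · subst h2
      rw [sum_insert ha, sum_eq_zero hT, add_zero] at hs
      exact hs
    · exact hT c h2

end der

/-- the statement for nonnegative exponents -/
theorem onex_pos {ι : Type} [Finite ι] [DecidableEq ι] (w : ι → ℕ) (i0 : ι) (S : Set (ℤ × ℤ))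
    (p : ℤ × ℤ) (hS : S.Finite) (hpos : ∀ m ∈ S, 0 ≤ m.1 ∧ 0 ≤ m.2) (hw : 1 ≤ w i0)
    (h : Emp (Function.update w i0 (w i0 - 1)) S) : Emp w (insert p S) := by
  classical
  obtain ⟨F, hF0, hF⟩ := Emp_open hS hpos h
  set w' := Function.update w i0 (w i0 - 1) with hw'
  have hle : ∀ i, w' i ≤ w i := by
    intro i
    by_cases hi : i = i0
    · subst hi; rw [hw', Function.update_self]; omega
    · rw [hw', Function.update_of_ne hi]
  let A := MvPolynomial (ι × Fin 2) ℚ
  let K := FractionRing A
  have hchar : CharZero K := algebraRat.charZero K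
  let P : ι × Fin 2 → K := fun q => algebraMap A K (X q)
  have hPF : MvPolynomial.aeval P F = algebraMap A K F := by
    have h1 : ((MvPolynomial.aeval P : A →ₐ[ℚ] K) : A →+* K) = algebraMap A K := by
      apply MvPolynomial.ringHom_ext'
      · exact Subsingleton.elim _ _
      · intro q
        simp [P]
    exact congrArg (fun g : A →+* K => g F) h1
  obtain ⟨hP0, hE⟩ := hF P (by
    rw [hPF]
    intro h0
    exact hF0 ((IsFractionRing.injective A K) (by rw [h0, map_zero])))
  -- the derivations
  let algK : Algebra ℚ K := OreLocalization.instAlgebra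
  have hD : ∀ j : Fin 2, ∃ D : Derivation ℚ K K, ∀ q, D (P q) = if q = (i0, j) then P q else 0 := by
    intro j
    obtain ⟨E, hE⟩ := exists_der_frac ((X (i0, j) : A) • (MvPolynomial.pderiv (R := ℚ) (i0, j)))
    refine ⟨E, fun q => ?_⟩
    simp only [P]
    rw [hE]
    by_cases hq : q = (i0, j)
    · subst hq
      simp
      rfl
    · rw [if_neg hq]
      simp [MvPolynomial.pderiv_X_of_ne hq]
  choose D hDP using hD
  refine ⟨K, inferInstance, hchar, fun i => P (i, 0), fun i => P (i, 1), fun i => hP0 _,
    fun i => hP0 _, fun f hfS hfL => ?_⟩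
  by_contra hf0
  have hfp : f p ≠ 0 := by
    intro h0
    apply hf0
    apply hE f _ (fun i => (hfL i).mono (hle i))
    intro m hm
    rcases hfS hm with h1 | h1
    · subst h1
      exact absurd h0 (Finsupp.mem_support_iff.1 (mem_coe.1 hm))
    · exact h1
  -- normalise
  set f1 := (f p)⁻¹ • f with hf1
  have hf1p : f1 p = 1 := by rw [hf1, Finsupp.smul_apply, smul_eq_mul, inv_mul_cancel₀ hfp]
  have hf1S : ∀ m, f1 m ≠ 0 → m = p ∨ m ∈ S := by
    intro m hm
    have : f m ≠ 0 := by
      intro h0
      apply hm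
      rw [hf1, Finsupp.smul_apply, h0, smul_zero]
    exact hfS (mem_coe.2 (Finsupp.mem_support_iff.2 this))
  have hf1L : ∀ i, LM f1 (P (i, 0)) (P (i, 1)) (w i) := fun i => LM_smul (hfL i) _
  -- the derivatives vanish
  have hder : ∀ j m, D j (f1 m) = 0 := by
    intro j
    have h0 : f1.mapRange (D j) (map_zero (D j)) = 0 := by
      apply hE
      · intro m hm
        have hne : D j (f1 m) ≠ 0 := Finsupp.mem_support_iff.1 (mem_coe.1 hm)
        rcases hf1S m (fun h0 => hne (by rw [h0, map_zero])) with h1 | h1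
        · subst h1
          exfalso
          apply hne
          rw [hf1p]
          exact Derivation.map_one_eq_zero _
        · exact h1
      · intro i
        apply LM_of_mono
        intro a b hab
        by_cases hi : i = i0
        · subst hi
          rw [hw', Function.update_self] at hab
          have hz : ∀ a b : ℕ, a + b < w i → pr f1 (P (i, 0)) (P (i, 1)) (fun q => q.1 ^ a * q.2 ^ b) = 0 :=
            fun a b hab => hf1L i _ (mem_PF_mono hab)
          have h1 := D_pr (D j) f1 (α := if j = 0 then 1 else 0) (β := if j = 1 then 1 else 0)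
            (hP0 (i, 0)) (hP0 (i, 1))
            (by rw [hDP]; fin_cases j <;> simp) (by rw [hDP]; fin_cases j <;> simp) a b
          rw [hz a b (by omega), hz (a + 1) b (by omega), hz a (b + 1) (by omega)] at h1
          simpa using h1.symm
        · rw [hw', Function.update_of_ne hi] at hab
          have h1 := D_pr (D j) f1 (α := 0) (β := 0) (hP0 (i, 0)) (hP0 (i, 1))
            (by rw [hDP]; simp [hi]) (by rw [hDP]; simp [hi]) a b
          rw [hf1L i _ (mem_PF_mono hab)] at h1
          simpa using h1.symm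
    intro m
    exact DFunLike.congr_fun h0 m
  -- the value
  have hval := hf1L i0 _ (mem_PF_mono (K := K) (a := 0) (b := 0) (w := w i0) (by omega))
  unfold pr Finsupp.sum at hval
  simp only [pow_zero, mul_one] at hval
  have hz := eig (D 0) (D 1) f1.support (fun m => f1 m * (P (i0, 0) ^ m.1 * P (i0, 1) ^ m.2)) (by
    intro c _
    rw [Derivation.leibniz, hder, D_mon (D 0) (α := 1) (β := 0) (hP0 (i0, 0)) (hP0 (i0, 1))
      (by rw [hDP]; simp) (by rw [hDP]; simp)]
    simp only [smul_eq_mul]
    ring) (by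
    intro c _
    rw [Derivation.leibniz, hder, D_mon (D 1) (α := 0) (β := 1) (hP0 (i0, 0)) (hP0 (i0, 1))
      (by rw [hDP]; simp) (by rw [hDP]; simp)]
    simp only [smul_eq_mul]
    ring) hval p (Finsupp.mem_support_iff.2 (by rw [hf1p]; exact one_ne_zero))
  simp only [hf1p, one_mul] at hz
  exact mul_ne_zero (zpow_ne_zero _ (hP0 _)) (zpow_ne_zero _ (hP0 _)) hz

/-- **ONEX** -/
theorem s_ONEX : Pool.Agent.L7h52.NQ.S_ONEX := by
  intro ι _ _ w i0 S p hS hw h
  classical
  obtain ⟨N, hN⟩ : ∃ N : ℤ, ∀ m ∈ S, 0 ≤ m.1 + N ∧ 0 ≤ m.2 + N := by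
    obtain ⟨N1, h1⟩ := (hS.image (fun m : ℤ × ℤ => -m.1)).bddAbove
    obtain ⟨N2, h2⟩ := (hS.image (fun m : ℤ × ℤ => -m.2)).bddAbove
    refine ⟨max N1 N2, fun m hm => ?_⟩
    have h3 := h1 ⟨m, hm, rfl⟩
    have h4 := h2 ⟨m, hm, rfl⟩
    simp only at h3 h4
    omega
  have h1 : Emp (Function.update w i0 (w i0 - 1)) ((fun m : ℤ × ℤ => (m.1 + N, m.2 + N)) '' S) := by
    refine h.comap 1 0 0 1 (-N) (-N) (by norm_num) ?_
    rintro _ ⟨m, hm, rfl⟩
    convert hm using 1
    ext <;> simp
  have h2 := onex_pos w i0 _ (p.1 + N, p.2 + N) (hS.image _) (by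
    rintro _ ⟨m, hm, rfl⟩
    exact hN m hm) hw h1
  refine h2.comap 1 0 0 1 N N (by norm_num) ?_
  rintro m (rfl | hm)
  · left; ext <;> simp
  · right
    exact ⟨m, hm, by ext <;> simp⟩

end Pool.Agent.L7h96.NQ
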